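import Pool.Agent.Y709.Kum.Stm2
import Pool.Agent.Y153.Kum.Degree

/-!
# Residue degrees for a family of Kummer elements (after `Pool.Agent.Y153.Kum.Degree`)
-/

set_option autoImplicit false

open Polynomial Module Pool.Agent.Y709

namespace Pool.Agent.Y363.Kum

theorem kummerDegreeFam : Pool.Agent.Y709.Kum.KummerDegreeFam := by
  intro k _ _ O _ _ Γ _ _ _ _ p _ μ a hμ hμk w g hwg hσ hP 𝔪 hin hw d hd
  have hm := Lay.under_isMaximal (k := k) Γ 𝔪
  have hm' := 𝔪.isMaximal
  have h1 := Lay.finite_quot (k := k) Γ 𝔪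
  have h2 : Finite (O ⧸ 𝔪.asIdeal) := Lay.finite_RO (k := k) Γ 𝔪
  have hc := IsGaloisGroup.commutes (G := Γ) (A := k[X]) (B := O)
  have hi := IsGaloisGroup.isInvariant (G := Γ) (A := k[X]) (B := O)
  have hpr := hm'.isPrime
  obtain ⟨φ, hφ⟩ := IsArithFrobAt.exists_of_isInvariant k[X] Γ 𝔪.asIdeal
  have hord := Pool.Agent.Y153.Kum.order_frob (R := k[X]) Γ 𝔪.asIdeal hin φ hφ
  have hcard : Nat.card (k[X] ⧸ 𝔪.asIdeal.under k[X]) = Nat.card k ^ d := by
    rw [hd]
    exact Module.natCard_eq_pow_finrank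
  set π := Ideal.Quotient.mk 𝔪.asIdeal with hπ
  choose c hc1 using fun i => hσ i φ
  set ι : k →+* O ⧸ 𝔪.asIdeal := (π.comp (algebraMap k[X] O)).comp C with hι
  have hιinj : Function.Injective ι := ι.injective
  have hπw : ∀ i, π (w i) ≠ 0 := fun i h => hw i (Ideal.Quotient.eq_zero_iff_mem.1 h)
  have : IsDomain (O ⧸ 𝔪.asIdeal) := Ideal.Quotient.isDomain _
  -- the value of `c`
  have hq : 1 ≤ Nat.card k ^ d := Nat.one_le_pow _ _ Nat.card_pos
  have hμd : μ ∣ Nat.card k ^ d - 1 := hμk.trans (by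
    simpa using Nat.sub_dvd_pow_sub_pow (Nat.card k) 1 d)
  have hv : ∀ i, ι (c i) = π (algebraMap k[X] O (g i)) ^ ((Nat.card k ^ d - 1) / μ) := by
    intro i
    have h3 : π (φ • w i) = π (w i) ^ (Nat.card k ^ d) := by
      rw [← hcard]
      exact hφ.mk_apply (w i)
    rw [hc1, map_mul] at h3
    have h4 : π (w i) ^ (Nat.card k ^ d) =
        (π (algebraMap k[X] O (g i))) ^ ((Nat.card k ^ d - 1) / μ) * π (w i) := by
      rw [← hwg, map_pow, ← pow_mul, Nat.mul_div_cancel' hμd, ← pow_succ,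
        Nat.sub_add_cancel hq]
    rw [h4] at h3
    exact mul_right_cancel₀ (hπw i) h3
  have hfun : (fun i => π (algebraMap k[X] O (g i)) ^ ((Nat.card k ^ d - 1) / μ)) =
      fun i => ι (c i) := funext fun i => (hv i).symm
  rw [hfun]
  have hpow : ∀ (i : Fin a) (j : ℕ), φ ^ j • w i = algebraMap k[X] O (C (c i ^ j)) * w i := by
    intro i j
    induction j with
    | zero => simp
    | succ j ih =>
      rw [pow_succ', mul_smul, ih, smul_mul', smul_algebraMap, hc1, ← mul_assoc, ← map_mul,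
        ← C_mul, ← pow_succ]
  have hstab : ∀ j : ℕ, φ ^ j ∈ (⨅ i, MulAction.stabilizer Γ (w i) : Subgroup Γ) ↔
      orderOf (fun i => ι (c i)) ∣ j := by
    intro j
    rw [Subgroup.mem_iInf, orderOf_dvd_iff_pow_eq_one, funext_iff]
    refine forall_congr' fun i => ?_
    rw [MulAction.mem_stabilizer_iff, hpow]
    have e1 : ((fun i => ι (c i)) ^ j) i = ι (c i ^ j) := (map_pow ι (c i) j).symm
    have e2 : (1 : Fin a → O ⧸ 𝔪.asIdeal) i = 1 := rfl
    rw [e1, e2]
    constructor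
    · intro h
      have h3 : ι (c i ^ j) * π (w i) = π (w i) := by
        have h4 := congrArg π h
        rwa [map_mul] at h4
      apply mul_right_cancel₀ (hπw i)
      rw [h3, one_mul]
    · intro h
      have h5 : c i ^ j = 1 := hιinj (h.trans (map_one ι).symm)
      rw [h5]
      simp
  set n := orderOf (fun i => ι (c i)) with hn
  have hn1 : n ∣ orderOf φ := (hstab _).1 (by
    rw [pow_orderOf_eq_one]
    exact Subgroup.one_mem _)
  have hφpos : 0 < orderOf φ := orderOf_pos φ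
  have hn0 : n ≠ 0 := fun h => by
    rw [h, zero_dvd_iff] at hn1
    omega
  obtain ⟨e, he⟩ := hP ⟨φ ^ n, (hstab n).2 dvd_rfl⟩
  have he' : (φ ^ n) ^ (p ^ e) = 1 := congrArg Subtype.val he
  obtain ⟨m, -, hm2⟩ := (Nat.dvd_prime_pow (Fact.out : p.Prime)).1 (orderOf_dvd_of_pow_eq_one he')
  refine ⟨m, ?_⟩
  rw [← hord, ← hm2, orderOf_pow_of_dvd hn0 hn1, Nat.mul_div_cancel' hn1]

end Pool.Agent.Y363.Kum
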